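import Mathlib

/-! # A one-sided van der Corput inequality along large finite difference sets -/

set_option autoImplicit false

open Filter Topology Finset

namespace H41.SW

/-- the mean of the first `N` terms -/
noncomputable def avg (u : ℕ → ℂ) (N : ℕ) : ℂ := (∑ n ∈ range N, u n) / N

lemma shift_sum (u : ℕ → ℂ) (hu : ∀ n, ‖u n‖ ≤ 1) (s N : ℕ) :
    ‖∑ n ∈ range N, u (n + s) - ∑ n ∈ range N, u n‖ ≤ 2 * s := by
  induction s with
  | zero => simp
  | succ s ih =>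
    have h1 : ∑ n ∈ range N, u (n + (s + 1)) = ∑ n ∈ range N, u (n + s) + (u (N + s) - u s) := by
      have h2 := sum_range_succ (fun n => u (n + s)) N
      have h3 := sum_range_succ' (fun n => u (n + s)) N
      rw [h2] at h3
      have h4 : ∀ n, u (n + 1 + s) = u (n + (s + 1)) := fun n => by ring_nf
      simp_rw [h4] at h3
      rw [zero_add] at h3
      linear_combination -h3
    rw [h1]
    calc ‖∑ n ∈ range N, u (n + s) + (u (N + s) - u s) - ∑ n ∈ range N, u n‖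
        = ‖(∑ n ∈ range N, u (n + s) - ∑ n ∈ range N, u n) + (u (N + s) - u s)‖ := by
          congr 1
          ring
      _ ≤ ‖∑ n ∈ range N, u (n + s) - ∑ n ∈ range N, u n‖ + ‖u (N + s) - u s‖ := norm_add_le _ _
      _ ≤ 2 * s + (‖u (N + s)‖ + ‖u s‖) := add_le_add ih (norm_sub_le _ _)
      _ ≤ 2 * s + (1 + 1) := by gcongr <;> exact hu _
      _ = 2 * ((s + 1 : ℕ) : ℝ) := by push_cast; ring

lemma shift_avg (u : ℕ → ℂ) (hu : ∀ n, ‖u n‖ ≤ 1) (s : ℕ) :
    Tendsto (fun N => avg (fun n => u (n + s)) N - avg u N) atTop (𝓝 0) := by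
  rw [tendsto_zero_iff_norm_tendsto_zero]
  refine squeeze_zero (g := fun N : ℕ => (2 * s : ℝ) / N) (fun _ => norm_nonneg _) (fun N => ?_)
    (tendsto_const_div_atTop_nhds_zero_nat _)
  unfold avg
  rw [← sub_div, norm_div, Complex.norm_natCast]
  exact div_le_div_of_nonneg_right (shift_sum u hu s N) (Nat.cast_nonneg _)

lemma cs (v : ℕ → ℂ) (N : ℕ) : ‖avg v N‖ ^ 2 ≤ (∑ n ∈ range N, ‖v n‖ ^ 2) / N := by
  rcases Nat.eq_zero_or_pos N with h | h
  · subst h; simp [avg]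
  have hN : (0 : ℝ) < N := by exact_mod_cast h
  unfold avg
  rw [norm_div, Complex.norm_natCast, div_pow, div_le_div_iff₀ (by positivity) hN]
  have h1 : ‖∑ n ∈ range N, v n‖ ^ 2 ≤ (∑ n ∈ range N, ‖v n‖) ^ 2 :=
    pow_le_pow_left₀ (norm_nonneg _) (norm_sum_le _ _) 2
  have h2 := sq_sum_le_card_mul_sum_sq (s := range N) (f := fun n => ‖v n‖)
  rw [card_range] at h2
  calc ‖∑ n ∈ range N, v n‖ ^ 2 * N ≤ (N * ∑ n ∈ range N, ‖v n‖ ^ 2) * N := by
        gcongr
        exact h1.trans h2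
    _ = (∑ n ∈ range N, ‖v n‖ ^ 2) * (N : ℝ) ^ 2 := by ring

lemma sq_expand (S : Finset ℕ) (w : ℕ → ℂ) :
    ‖∑ s ∈ S, w s‖ ^ 2 = ∑ s ∈ S, ∑ s' ∈ S, (w s * (starRingEnd ℂ) (w s')).re := by
  have h1 : ((‖∑ s ∈ S, w s‖ ^ 2 : ℝ) : ℂ) = (∑ s ∈ S, w s) * (starRingEnd ℂ) (∑ s ∈ S, w s) := by
    rw [Complex.mul_conj, Complex.normSq_eq_norm_sq]
  have h2 := congrArg Complex.re h1
  rw [Complex.ofReal_re, map_sum, sum_mul_sum, Complex.re_sum] at h2
  rw [h2]
  exact sum_congr rfl fun s _ => Complex.re_sum _ _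

/-- **The one-sided van der Corput inequality** -/
theorem vdc (u : ℕ → ℂ) (hu : ∀ n, ‖u n‖ ≤ 1) (S : Finset ℕ) (hS : 0 < S.card) {δ ε : ℝ}
    (hδ : 0 ≤ δ) (hε : 0 < ε)
    (h : ∀ s ∈ S, ∀ s' ∈ S, s' < s → ∀ᶠ N in atTop,
      (avg (fun n => u (n + s) * (starRingEnd ℂ) (u (n + s'))) N).re ≤ δ) :
    ∀ᶠ N in atTop, ‖avg u N‖ ^ 2 ≤ 1 / S.card + δ + ε := by
  obtain ⟨K, hK⟩ : ∃ K : ℝ, K = S.card := ⟨_, rfl⟩
  have hK0 : 0 < K := by rw [hK]; exact_mod_cast hS
  rw [← hK]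
  -- the mean over `S`
  have hlim : Tendsto (fun N => avg (fun n => ∑ s ∈ S, u (n + s)) N - K * avg u N) atTop (𝓝 0) := by
    have h1 := tendsto_finsetSum S fun s _ => shift_avg u hu s
    rw [sum_const_zero] at h1
    refine h1.congr fun N => ?_
    rw [sum_sub_distrib, sum_const, nsmul_eq_mul, hK]
    congr 1
    unfold avg
    rw [← sum_div]
    congr 1
    rw [sum_comm]
  -- pairs
  have hpair : ∀ s ∈ S, ∀ s' ∈ S, s ≠ s' → ∀ᶠ N in atTop,
      (avg (fun n => u (n + s) * (starRingEnd ℂ) (u (n + s'))) N).re ≤ δ := by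
    intro s hs s' hs' hne
    rcases lt_or_gt_of_ne hne with h1 | h1
    · filter_upwards [h s' hs' s hs h1] with N hN
      have e : (avg (fun n => u (n + s) * (starRingEnd ℂ) (u (n + s'))) N).re =
          (avg (fun n => u (n + s') * (starRingEnd ℂ) (u (n + s))) N).re := by
        have e1 : avg (fun n => u (n + s) * (starRingEnd ℂ) (u (n + s'))) N =
            (starRingEnd ℂ) (avg (fun n => u (n + s') * (starRingEnd ℂ) (u (n + s))) N) := by
          unfold avg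
          rw [map_div₀, map_sum, map_natCast]
          congr 1
          refine sum_congr rfl fun n _ => ?_
          rw [map_mul, Complex.conj_conj, mul_comm]
        rw [e1, Complex.conj_re]
      rw [e]
      exact hN
    · exact h s hs s' hs' h1
  have hev : ∀ᶠ N in atTop, ∀ s ∈ S, ∀ s' ∈ S, s ≠ s' →
      (avg (fun n => u (n + s) * (starRingEnd ℂ) (u (n + s'))) N).re ≤ δ := by
    rw [Filter.eventually_all_finset]
    intro s hs
    rw [Filter.eventually_all_finset]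
    intro s' hs'
    by_cases hne : s = s'
    · exact Eventually.of_forall fun N h' => absurd hne h'
    · filter_upwards [hpair s hs s' hs' hne] with N hN _
      exact hN
  obtain ⟨η, hη⟩ : ∃ η : ℝ, η = min 1 (ε * K ^ 2 / (2 * K + 1)) := ⟨_, rfl⟩
  have hη0 : 0 < η := by rw [hη]; exact lt_min one_pos (by positivity)
  have hη1 : η ≤ 1 := by rw [hη]; exact min_le_left _ _
  have hη2 : η * (2 * K + 1) ≤ ε * K ^ 2 := by
    have : η ≤ ε * K ^ 2 / (2 * K + 1) := by rw [hη]; exact min_le_right _ _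
    rwa [le_div_iff₀ (by positivity)] at this
  have hlim' := (tendsto_zero_iff_norm_tendsto_zero.1 hlim).eventually (gt_mem_nhds hη0)
  filter_upwards [hev, hlim', eventually_gt_atTop 0] with N h1 h2 hN
  have hNr : (0 : ℝ) < N := by exact_mod_cast hN
  obtain ⟨v, hv⟩ : ∃ v : ℕ → ℂ, v = fun n => ∑ s ∈ S, u (n + s) := ⟨_, rfl⟩
  rw [← hv] at h2
  have hv2 : ‖avg v N‖ ^ 2 ≤ K + δ * K ^ 2 := by
    refine (cs v N).trans ?_
    have e1 : (∑ n ∈ range N, ‖v n‖ ^ 2) / N = ∑ s ∈ S, ∑ s' ∈ S,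
        (avg (fun n => u (n + s) * (starRingEnd ℂ) (u (n + s'))) N).re := by
      have e2 : ∀ n, ‖v n‖ ^ 2 = ∑ s ∈ S, ∑ s' ∈ S, (u (n + s) * (starRingEnd ℂ) (u (n + s'))).re :=
        fun n => by rw [hv]; exact sq_expand S fun s => u (n + s)
      simp_rw [e2]
      rw [sum_comm, sum_div]
      refine sum_congr rfl fun s _ => ?_
      rw [sum_comm, sum_div]
      refine sum_congr rfl fun s' _ => ?_
      unfold avg
      rw [Complex.div_natCast_re, Complex.re_sum]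
    rw [e1]
    have e3 : ∀ s ∈ S, ∑ s' ∈ S, (avg (fun n => u (n + s) * (starRingEnd ℂ) (u (n + s'))) N).re ≤
        1 + δ * K := by
      intro s hs
      rw [← add_sum_erase S _ hs]
      refine add_le_add ?_ ?_
      · refine (Complex.re_le_norm _).trans ?_
        unfold avg
        rw [norm_div, Complex.norm_natCast, div_le_one hNr]
        refine (norm_sum_le _ _).trans ?_
        have : ∑ n ∈ range N, ‖u (n + s) * (starRingEnd ℂ) (u (n + s))‖ ≤ ∑ n ∈ range N, (1 : ℝ) := by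
          refine sum_le_sum fun n _ => ?_
          rw [norm_mul, RCLike.norm_conj]
          exact mul_le_one₀ (hu _) (norm_nonneg _) (hu _)
        simpa using this
      · refine (sum_le_sum (g := fun _ => δ) fun s' hs' => ?_).trans ?_
        · exact h1 s hs s' (mem_of_mem_erase hs') (ne_of_mem_erase hs').symm
        · rw [sum_const, nsmul_eq_mul, hK, mul_comm]
          have : ((S.erase s).card : ℝ) ≤ S.card := by exact_mod_cast card_le_card (erase_subset _ _)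
          exact mul_le_mul_of_nonneg_left this hδ
    calc ∑ s ∈ S, ∑ s' ∈ S, (avg (fun n => u (n + s) * (starRingEnd ℂ) (u (n + s'))) N).re ≤
          ∑ s ∈ S, (1 + δ * K) := sum_le_sum e3
      _ = K + δ * K ^ 2 := by rw [sum_const, nsmul_eq_mul, ← hK]; ring
  have h3 : K * ‖avg u N‖ ≤ ‖avg v N‖ + η := by
    have e1 : (K : ℂ) * avg u N = avg v N - (avg v N - K * avg u N) := by ring
    have e2 : ‖(K : ℂ) * avg u N‖ = K * ‖avg u N‖ := by
      rw [norm_mul, Complex.norm_real, Real.norm_eq_abs, abs_of_pos hK0]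
    rw [← e2, e1]
    refine (norm_sub_le _ _).trans ?_
    linarith
  have hvK : ‖avg v N‖ ≤ K := by
    unfold avg
    rw [norm_div, Complex.norm_natCast, div_le_iff₀ hNr]
    refine (norm_sum_le _ _).trans ?_
    have : ∑ n ∈ range N, ‖v n‖ ≤ ∑ n ∈ range N, K := by
      refine sum_le_sum fun n _ => ?_
      rw [hv, hK]
      refine (norm_sum_le _ _).trans ?_
      have : ∑ s ∈ S, ‖u (n + s)‖ ≤ ∑ s ∈ S, (1 : ℝ) := sum_le_sum fun s _ => hu _
      simpa using this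
    rw [sum_const, card_range, nsmul_eq_mul] at this
    linarith
  have h4 : (K * ‖avg u N‖) ^ 2 ≤ (‖avg v N‖ + η) ^ 2 := by
    have := norm_nonneg (avg u N)
    gcongr
  have h5 : (‖avg v N‖ + η) ^ 2 ≤ K + δ * K ^ 2 + η * (2 * K + 1) := by
    have := norm_nonneg (avg v N)
    nlinarith
  have h6 : K ^ 2 * ‖avg u N‖ ^ 2 ≤ K ^ 2 * (1 / K + δ + ε) := by
    have e1 : K ^ 2 * (1 / K + δ + ε) = K + δ * K ^ 2 + ε * K ^ 2 := by
      field_simp
    rw [e1]
    have e2 : (K * ‖avg u N‖) ^ 2 = K ^ 2 * ‖avg u N‖ ^ 2 := by ring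
    linarith
  exact le_of_mul_le_mul_left h6 (by positivity)

/-- the exponential -/
noncomputable def e (t : ℝ) : ℂ := Complex.exp (((2 * Real.pi * t : ℝ) : ℂ) * Complex.I)

lemma e_add (s t : ℝ) : e (s + t) = e s * e t := by
  unfold e
  rw [← Complex.exp_add]
  congr 1
  push_cast
  ring

lemma e_neg (t : ℝ) : e (-t) = (starRingEnd ℂ) (e t) := by
  unfold e
  rw [← Complex.exp_conj, map_mul, Complex.conj_ofReal, Complex.conj_I]
  congr 1
  push_cast
  ring

lemma e_norm (t : ℝ) : ‖e t‖ = 1 := by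
  unfold e
  rw [Complex.norm_exp_ofReal_mul_I]

lemma e_re (t : ℝ) : (e t).re = Real.cos (2 * Real.pi * t) := by
  unfold e
  rw [Complex.exp_ofReal_mul_I_re]

/-- the sum of the exponentials along the orbit -/
noncomputable def ex (b : ℕ) (x : ℝ) (m : ℤ) (n : ℕ) : ℂ := e (m * ((b : ℝ) ^ n * x))

lemma ex_norm (b : ℕ) (x : ℝ) (m : ℤ) (n : ℕ) : ‖ex b x m n‖ ≤ 1 := (e_norm _).le

lemma ex_pair (b : ℕ) (x : ℝ) (m : ℤ) {s s' : ℕ} (h : s' ≤ s) (n : ℕ) :
    ex b x m (n + s) * (starRingEnd ℂ) (ex b x m (n + s')) =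
      ex b x (m * ((b : ℤ) ^ (s - s') - 1)) (n + s') := by
  unfold ex
  rw [← e_neg, ← e_add]
  congr 1
  obtain ⟨d, rfl⟩ := Nat.exists_eq_add_of_le h
  rw [Nat.add_sub_cancel_left]
  push_cast
  rw [pow_add, pow_add, pow_add]
  ring

lemma ex_mul (b : ℕ) (x : ℝ) (m : ℤ) (k n : ℕ) : ex b x (m * (b : ℤ) ^ k) n = ex b x m (n + k) := by
  unfold ex
  congr 1
  push_cast
  rw [pow_add]
  ring

/-- the mean of the cosines -/
noncomputable def cm (b : ℕ) (x : ℝ) (m : ℤ) (N : ℕ) : ℝ :=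
  (∑ n ∈ range N, Real.cos (2 * Real.pi * m * (b : ℝ) ^ n * x)) / N

lemma cm_eq (b : ℕ) (x : ℝ) (m : ℤ) (N : ℕ) : (avg (ex b x m) N).re = cm b x m N := by
  unfold avg cm
  rw [Complex.div_natCast_re, Complex.re_sum]
  congr 1
  refine sum_congr rfl fun n _ => ?_
  unfold ex
  rw [e_re]
  congr 1
  ring

/-- `D` contains the differences of arbitrarily large finite sets -/
def Ample (D : Set ℕ) : Prop := ∀ K : ℕ, ∃ S : Finset ℕ, K ≤ S.card ∧
  ∀ s ∈ S, ∀ s' ∈ S, s' < s → s - s' ∈ D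

theorem mean_zero (b : ℕ) (x : ℝ) (m : ℤ)
    (h : ∀ ε : ℝ, 0 < ε → Ample {d | ∀ᶠ N in atTop, cm b x (m * ((b : ℤ) ^ d - 1)) N ≤ ε}) :
    Tendsto (avg (ex b x m)) atTop (𝓝 0) := by
  rw [tendsto_zero_iff_norm_tendsto_zero, Metric.tendsto_atTop]
  intro η hη
  obtain ⟨ε, hε⟩ : ∃ ε : ℝ, ε = η ^ 2 / 8 := ⟨_, rfl⟩
  have hε0 : 0 < ε := by rw [hε]; positivity
  obtain ⟨K, hK⟩ := exists_nat_gt (1 / ε)
  obtain ⟨S, hS, hD⟩ := h ε hε0 K
  have hK0 : (0 : ℝ) < K := lt_trans (by positivity) hK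
  have hSc : (0 : ℝ) < S.card := lt_of_lt_of_le hK0 (by exact_mod_cast hS)
  have h1 := vdc (ex b x m) (ex_norm b x m) S (by exact_mod_cast hSc) (δ := 2 * ε) (ε := ε)
    (by positivity) hε0 (by
      intro s hs s' hs' hlt
      have h2 := hD s hs s' hs' hlt
      rw [Set.mem_ofPred_eq] at h2
      have h3 := shift_avg (ex b x (m * ((b : ℤ) ^ (s - s') - 1))) (ex_norm _ _ _) s'
      have h4 := (tendsto_zero_iff_norm_tendsto_zero.1 h3).eventually (gt_mem_nhds hε0)
      filter_upwards [h2, h4] with N g1 g2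
      have e1 : (fun n => ex b x m (n + s) * (starRingEnd ℂ) (ex b x m (n + s'))) =
          fun n => ex b x (m * ((b : ℤ) ^ (s - s') - 1)) (n + s') :=
        funext fun n => ex_pair b x m hlt.le n
      rw [e1]
      have e2 := (Complex.re_le_norm (avg (fun n => ex b x (m * ((b : ℤ) ^ (s - s') - 1)) (n + s')) N -
        avg (ex b x (m * ((b : ℤ) ^ (s - s') - 1))) N)).trans g2.le
      rw [Complex.sub_re, cm_eq] at e2
      linarith)
  obtain ⟨N0, hN0⟩ := eventually_atTop.1 h1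
  refine ⟨N0, fun N hN => ?_⟩
  have h5 := hN0 N hN
  have h6 : 1 / (S.card : ℝ) ≤ ε := by
    rw [div_le_iff₀ hSc]
    have h7 : (K : ℝ) ≤ S.card := by exact_mod_cast hS
    have h8 : 1 < ε * K := by
      rw [div_lt_iff₀ hε0] at hK
      linarith
    nlinarith
  rw [Real.dist_eq, sub_zero, abs_of_nonneg (norm_nonneg _)]
  by_contra hcon
  push Not at hcon
  have h7 : η ^ 2 ≤ ‖avg (ex b x m) N‖ ^ 2 := by gcongr
  have h8 : 0 < η ^ 2 := by positivity
  linarith

end H41.SW
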