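import Pool.Agent.H41.SW.A

/-! # From exponential sums to the frequencies of words -/

set_option autoImplicit false

open Filter Topology Finset MeasureTheory

namespace H41.SW

lemma int_fourier {m : ℤ} (hm : m ≠ 0) :
    ∫ z : UnitAddCircle, (fourier m z : ℂ) = 0 := by
  have h1 : ∫ z : UnitAddCircle, (fourier m (z + ((1 / 2 / m : ℝ) : UnitAddCircle)) : ℂ) =
      ∫ z : UnitAddCircle, (fourier m z : ℂ) :=
    integral_add_right_eq_self (fun z : UnitAddCircle => (fourier m z : ℂ)) _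
  have h2 : ∀ z : UnitAddCircle, (fourier m (z + ((1 / 2 / m : ℝ) : UnitAddCircle)) : ℂ) =
      -fourier m z := fun z => fourier_add_half_inv_index hm one_pos z
  simp_rw [h2] at h1
  rw [integral_neg] at h1
  have h3 : (2 : ℂ) * ∫ z : UnitAddCircle, (fourier m z : ℂ) = 0 := by linear_combination -h1
  simpa using h3

lemma vol_one : (volume : Measure UnitAddCircle).real Set.univ = 1 := by
  rw [Measure.real, UnitAddCircle.measure_univ, ENNReal.toReal_one]

/-- **Weyl's criterion** for continuous functions -/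
theorem weyl (y : ℕ → ℝ)
    (h : ∀ m : ℤ, m ≠ 0 → Tendsto (avg fun n => e (m * y n)) atTop (𝓝 0))
    (f : C(UnitAddCircle, ℂ)) :
    Tendsto (avg fun n => f (y n : UnitAddCircle)) atTop (𝓝 (∫ z : UnitAddCircle, f z)) := by
  have hint : ∀ g : C(UnitAddCircle, ℂ), Integrable (fun z => g z) :=
    fun g => g.continuous.integrable_of_hasCompactSupport (HasCompactSupport.of_compactSpace _)
  -- the span
  have hspan : ∀ g ∈ Submodule.span ℂ (Set.range (@fourier 1)),
      Tendsto (avg fun n => g (y n : UnitAddCircle)) atTop (𝓝 (∫ z : UnitAddCircle, g z)) := by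
    intro g hg
    refine Submodule.span_induction ?_ ?_ ?_ ?_ hg
    · rintro _ ⟨m, rfl⟩
      have e1 : ∀ n, (fourier m (y n : UnitAddCircle) : ℂ) = e (m * y n) := by
        intro n
        rw [fourier_coe_apply]
        unfold e
        congr 1
        push_cast
        ring
      rcases eq_or_ne m 0 with hm | hm
      · subst hm
        have e2 : ∫ z : UnitAddCircle, (fourier 0 z : ℂ) = 1 := by
          simp [vol_one]
        rw [e2]
        refine tendsto_const_nhds.congr' ?_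
        filter_upwards [eventually_gt_atTop 0] with N hN
        have hN0 : (N : ℂ) ≠ 0 := by exact_mod_cast hN.ne'
        unfold avg
        simp [hN0]
      · rw [int_fourier hm]
        simp_rw [e1]
        exact h m hm
    · simp only [ContinuousMap.coe_zero, Pi.zero_apply, integral_zero]
      refine tendsto_const_nhds.congr fun N => ?_
      simp [avg]
    · intro g₁ g₂ _ _ h1 h2
      have h3 := h1.add h2
      simp only [ContinuousMap.coe_add, Pi.add_apply]
      rw [integral_add (hint g₁) (hint g₂)]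
      refine h3.congr fun N => ?_
      unfold avg
      rw [sum_add_distrib, add_div]
    · intro c g₁ _ h1
      have h3 := h1.const_mul c
      simp only [ContinuousMap.coe_smul, Pi.smul_apply, smul_eq_mul]
      rw [integral_const_mul]
      refine h3.congr fun N => ?_
      unfold avg
      rw [← mul_sum, mul_div_assoc]
  -- the closure
  have hf : f ∈ closure (Submodule.span ℂ (Set.range (@fourier 1)) : Set C(UnitAddCircle, ℂ)) := by
    rw [← Submodule.topologicalClosure_coe, span_fourier_closure_eq_top]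
    trivial
  rw [Metric.tendsto_atTop]
  intro ε hε
  obtain ⟨g, hg, hfg⟩ := Metric.mem_closure_iff.1 hf (ε / 3) (by positivity)
  obtain ⟨N0, hN0⟩ := Metric.tendsto_atTop.1 (hspan g hg) (ε / 3) (by positivity)
  refine ⟨max N0 1, fun N hN => ?_⟩
  have hN1 : N0 ≤ N := (le_max_left _ _).trans hN
  have hN2 : 1 ≤ N := (le_max_right _ _).trans hN
  have hNr : (0 : ℝ) < N := by exact_mod_cast hN2
  rw [dist_eq_norm] at hfg
  have hpt : ∀ z, ‖f z - g z‖ ≤ ε / 3 := fun z => by
    have := (ContinuousMap.norm_coe_le_norm (f - g) z).trans hfg.le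
    simpa using this
  have h1 : ‖avg (fun n => f (y n : UnitAddCircle)) N - avg (fun n => g (y n : UnitAddCircle)) N‖ ≤
      ε / 3 := by
    unfold avg
    rw [← sub_div, ← sum_sub_distrib, norm_div, Complex.norm_natCast, div_le_iff₀ hNr]
    refine (norm_sum_le _ _).trans ?_
    have := sum_le_sum (s := range N) fun n _ => hpt (y n : UnitAddCircle)
    rw [sum_const, card_range, nsmul_eq_mul] at this
    linarith
  have h2 : ‖(∫ z : UnitAddCircle, f z) - ∫ z : UnitAddCircle, g z‖ ≤ ε / 3 := by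
    rw [← integral_sub (hint f) (hint g)]
    have := norm_integral_le_of_norm_le_const (μ := (volume : Measure UnitAddCircle))
      (ae_of_all _ hpt)
    rw [vol_one, mul_one] at this
    simpa using this
  have h3 := hN0 N hN1
  rw [dist_eq_norm] at h3 ⊢
  calc ‖avg (fun n => f (y n : UnitAddCircle)) N - ∫ z : UnitAddCircle, f z‖
      = ‖(avg (fun n => f (y n : UnitAddCircle)) N - avg (fun n => g (y n : UnitAddCircle)) N) +
        (avg (fun n => g (y n : UnitAddCircle)) N - ∫ z : UnitAddCircle, g z) -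
        ((∫ z : UnitAddCircle, f z) - ∫ z : UnitAddCircle, g z)‖ := by
          congr 1
          ring
    _ ≤ ‖avg (fun n => f (y n : UnitAddCircle)) N - avg (fun n => g (y n : UnitAddCircle)) N‖ +
        ‖avg (fun n => g (y n : UnitAddCircle)) N - ∫ z : UnitAddCircle, g z‖ +
        ‖(∫ z : UnitAddCircle, f z) - ∫ z : UnitAddCircle, g z‖ :=
          (norm_sub_le _ _).trans (add_le_add (norm_add_le _ _) le_rfl)
    _ < ε := by linarith

/-- upper bound for the number of points in a short arc -/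
theorem arc (y : ℕ → ℝ) (h : ∀ m : ℤ, m ≠ 0 → Tendsto (avg fun n => e (m * y n)) atTop (𝓝 0))
    (c r : ℝ) (hr : 0 < r) (P : ℕ → Prop) [DecidablePred P]
    (hP : ∀ n, P n → ‖((y n - c : ℝ) : UnitAddCircle)‖ ≤ r) {ε : ℝ} (hε : 0 < ε) :
    ∀ᶠ N : ℕ in atTop, (((range N).filter P).card : ℝ) / N ≤ 2 * r + ε := by
  obtain ⟨δ, hδ⟩ : ∃ δ : ℝ, δ = ε / 4 := ⟨_, rfl⟩
  have hδ0 : 0 < δ := by rw [hδ]; positivity
  obtain ⟨T, hT⟩ : ∃ T : UnitAddCircle → ℝ, T = fun z =>
      max 0 (min 1 ((r + δ - ‖z - (c : UnitAddCircle)‖) / δ)) := ⟨_, rfl⟩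
  have hTc : Continuous T := by
    rw [hT]
    fun_prop
  have hT0 : ∀ z, 0 ≤ T z := fun z => by rw [hT]; exact le_max_left _ _
  have hT1 : ∀ z, T z ≤ (Metric.closedBall (c : UnitAddCircle) (r + δ)).indicator (fun _ => (1 : ℝ)) z := by
    intro z
    rw [hT]
    simp only
    by_cases hz : z ∈ Metric.closedBall (c : UnitAddCircle) (r + δ)
    · rw [Set.indicator_of_mem hz]
      exact max_le zero_le_one (min_le_left _ _)
    · rw [Set.indicator_of_notMem hz]
      rw [Metric.mem_closedBall, dist_eq_norm, not_le] at hz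
      refine max_le le_rfl ((min_le_right _ _).trans ?_)
      exact div_nonpos_of_nonpos_of_nonneg (by linarith) hδ0.le
  have hTi : ∫ z : UnitAddCircle, T z ≤ 2 * r + 2 * δ := by
    have h1 : ∫ z : UnitAddCircle, T z ≤
        ∫ z, (Metric.closedBall (c : UnitAddCircle) (r + δ)).indicator (fun _ => (1 : ℝ)) z := by
      refine integral_mono (hTc.integrable_of_hasCompactSupport (HasCompactSupport.of_compactSpace _))
        ?_ hT1
      exact (integrable_const (1 : ℝ)).indicator Metric.isClosed_closedBall.measurableSet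
    refine h1.trans ?_
    rw [integral_indicator Metric.isClosed_closedBall.measurableSet, setIntegral_const, smul_eq_mul,
      mul_one, Measure.real, AddCircle.volume_closedBall, ENNReal.toReal_ofReal (by positivity)]
    refine (min_le_right _ _).trans (le_of_eq ?_)
    ring
  obtain ⟨f, hf⟩ : ∃ f : C(UnitAddCircle, ℂ), ∀ z, f z = (T z : ℂ) :=
    ⟨⟨fun z => (T z : ℂ), by fun_prop⟩, fun z => rfl⟩
  have h1 := weyl y h f
  have h2 : ∫ z : UnitAddCircle, f z = ((∫ z : UnitAddCircle, T z : ℝ) : ℂ) := by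
    simp_rw [hf]
    exact integral_complex_ofReal
  rw [h2] at h1
  have h3 := ((Complex.continuous_re.tendsto _).comp h1).eventually
    (gt_mem_nhds (show (((∫ z : UnitAddCircle, T z : ℝ) : ℂ)).re < 2 * r + ε by
      rw [Complex.ofReal_re]; linarith))
  filter_upwards [h3, eventually_gt_atTop 0] with N h4 hN
  have hNr : (0 : ℝ) < N := by exact_mod_cast hN
  refine le_trans ?_ h4.le
  show _ ≤ (avg (fun n => f (y n : UnitAddCircle)) N).re
  unfold avg
  rw [Complex.div_natCast_re, Complex.re_sum]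
  apply div_le_div_of_nonneg_right _ hNr.le
  have e1 : (((range N).filter P).card : ℝ) = ∑ n ∈ (range N).filter P, (1 : ℝ) := by simp
  rw [e1]
  calc ∑ n ∈ (range N).filter P, (1 : ℝ) ≤ ∑ n ∈ (range N).filter P, (f (y n : UnitAddCircle)).re := by
        refine sum_le_sum fun n hn => ?_
        have hn' := hP n (mem_filter.1 hn).2
        rw [AddCircle.coe_sub] at hn'
        rw [hf, Complex.ofReal_re, hT]
        simp only
        rw [min_eq_left, max_eq_right zero_le_one]
        rw [le_div_iff₀ hδ0]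
        linarith
    _ ≤ ∑ n ∈ range N, (f (y n : UnitAddCircle)).re := by
        refine sum_le_sum_of_subset_of_nonneg (filter_subset _ _) fun n _ _ => ?_
        rw [hf, Complex.ofReal_re]
        exact hT0 _

/-- the digit of `x` in base `b` at the place `i + 1` after the point -/
noncomputable def digit (b : ℕ) (x : ℝ) (i : ℕ) : ℤ := ⌊x * (b : ℝ) ^ (i + 1)⌋ % (b : ℤ)

/-- the block of `k` digits as an integer -/
noncomputable def V (b : ℕ) (x : ℝ) (k n : ℕ) : ℤ := ⌊x * (b : ℝ) ^ (n + k)⌋ % ((b : ℤ) ^ k)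

lemma V_succ (b : ℕ) (hb : 0 < b) (x : ℝ) (k n : ℕ) :
    V b x (k + 1) n = b * V b x k n + digit b x (n + k) := by
  unfold V digit
  have hb0 : (0 : ℝ) < b := by exact_mod_cast hb
  obtain ⟨z, hz⟩ : ∃ z : ℝ, z = x * (b : ℝ) ^ (n + k) := ⟨_, rfl⟩
  have e1 : x * (b : ℝ) ^ (n + (k + 1)) = z * b := by rw [hz, ← add_assoc, pow_succ]; ring
  have e2 : x * (b : ℝ) ^ (n + k + 1) = z * b := by rw [hz, pow_succ]; ring
  rw [e1, e2, ← hz]
  have h1 : ⌊z * b⌋ / (b : ℤ) = ⌊z⌋ := by
    have := Int.floor_div_natCast (z * b) b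
    rw [mul_div_cancel_right₀ _ hb0.ne'] at this
    exact this.symm
  have h2 := Int.emod_add_mul_ediv ⌊z * b⌋ (b : ℤ)
  rw [h1] at h2
  have h3 := Int.emod_add_mul_ediv ⌊z⌋ ((b : ℤ) ^ k)
  have hbk : (0 : ℤ) < (b : ℤ) ^ k := by positivity
  have hbz : (0 : ℤ) < (b : ℤ) := by exact_mod_cast hb
  have g1 := Int.emod_nonneg ⌊z * b⌋ hbz.ne'
  have g2 := Int.emod_lt_of_pos ⌊z * b⌋ hbz
  have g3 := Int.emod_nonneg ⌊z⌋ hbk.ne'
  have g4 := Int.emod_lt_of_pos ⌊z⌋ hbk
  have h4 : ⌊z * b⌋ = ((b : ℤ) * (⌊z⌋ % (b : ℤ) ^ k) + ⌊z * b⌋ % (b : ℤ)) +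
      (b : ℤ) ^ (k + 1) * (⌊z⌋ / (b : ℤ) ^ k) := by
    rw [pow_succ]
    linear_combination -h2 - (b : ℤ) * h3
  have h5 : ⌊z * b⌋ % (b : ℤ) ^ (k + 1) = (b : ℤ) * (⌊z⌋ % (b : ℤ) ^ k) + ⌊z * b⌋ % (b : ℤ) := by
    conv_lhs => rw [h4]
    rw [Int.add_mul_emod_self_left]
    refine Int.emod_eq_of_lt (by positivity) ?_
    rw [pow_succ]
    nlinarith
  exact h5

/-- the value of a word -/
def W (b : ℕ) (w : ℕ → ℤ) : ℕ → ℤ
  | 0 => 0
  | k + 1 => b * W b w k + w k

lemma W_congr (b : ℕ) (w w' : ℕ → ℤ) (k : ℕ) (h : ∀ j < k, w j = w' j) : W b w k = W b w' k := by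
  induction k with
  | zero => rfl
  | succ k ih =>
    show b * W b w k + w k = b * W b w' k + w' k
    rw [ih fun j hj => h j (by omega), h k (by omega)]

lemma digit_range (b : ℕ) (hb : 0 < b) (x : ℝ) (i : ℕ) : 0 ≤ digit b x i ∧ digit b x i < b := by
  have hbz : (0 : ℤ) < (b : ℤ) := by exact_mod_cast hb
  exact ⟨Int.emod_nonneg _ hbz.ne', Int.emod_lt_of_pos _ hbz⟩

lemma W_range (b : ℕ) (w : ℕ → ℤ) (k : ℕ) (h : ∀ j < k, 0 ≤ w j ∧ w j < b) :
    0 ≤ W b w k ∧ W b w k < (b : ℤ) ^ k := by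
  induction k with
  | zero => exact ⟨le_rfl, by simp [W]⟩
  | succ k ih =>
    obtain ⟨h1, h2⟩ := ih fun j hj => h j (by omega)
    obtain ⟨h3, h4⟩ := h k (by omega)
    show 0 ≤ b * W b w k + w k ∧ b * W b w k + w k < (b : ℤ) ^ (k + 1)
    refine ⟨by positivity, ?_⟩
    rw [pow_succ]
    nlinarith

lemma V_iff (b : ℕ) (hb : 0 < b) (x : ℝ) (w : ℕ → ℤ) (k n : ℕ) (h : ∀ j < k, 0 ≤ w j ∧ w j < b) :
    V b x k n = W b w k ↔ ∀ j < k, digit b x (n + j) = w j := by
  induction k with
  | zero => simp [V, W]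
  | succ k ih =>
    have h1 := ih fun j hj => h j (by omega)
    obtain ⟨h3, h4⟩ := h k (by omega)
    obtain ⟨h5, h6⟩ := digit_range b hb x (n + k)
    rw [V_succ b hb]
    show b * V b x k n + digit b x (n + k) = b * W b w k + w k ↔ _
    have hbz : (0 : ℤ) < (b : ℤ) := by exact_mod_cast hb
    constructor
    · intro h7
      have h8 : V b x k n = W b w k := by
        have h9 : (b : ℤ) * (V b x k n - W b w k) = w k - digit b x (n + k) := by linarith
        by_contra hne
        rcases lt_or_gt_of_ne (sub_ne_zero.2 hne) with h10 | h10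
        · have : (b : ℤ) * (V b x k n - W b w k) ≤ b * (-1) :=
            mul_le_mul_of_nonneg_left (by omega) hbz.le
          omega
        · have : (b : ℤ) * 1 ≤ (b : ℤ) * (V b x k n - W b w k) :=
            mul_le_mul_of_nonneg_left (by omega) hbz.le
          omega
      intro j hj
      rcases Nat.lt_succ_iff_lt_or_eq.1 hj with h10 | h10
      · exact h1.1 h8 j h10
      · rw [h10]
        rw [h8] at h7
        linarith
    · intro h7
      rw [h1.2 fun j hj => h7 j (by omega), h7 k (by omega)]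

lemma exists_word (b : ℕ) (hb : 0 < b) (k : ℕ) (v : ℤ) (h0 : 0 ≤ v) (h1 : v < (b : ℤ) ^ k) :
    ∃ w : ℕ → ℤ, (∀ j, 0 ≤ w j ∧ w j < b) ∧ W b w k = v := by
  have hbz : (0 : ℤ) < (b : ℤ) := by exact_mod_cast hb
  induction k generalizing v with
  | zero =>
    refine ⟨fun _ => 0, fun _ => ⟨le_rfl, hbz⟩, ?_⟩
    rw [pow_zero] at h1
    show (0 : ℤ) = v
    omega
  | succ k ih =>
    obtain ⟨w, hw, hv⟩ := ih (v / b) (Int.ediv_nonneg h0 hbz.le) (by
      rw [Int.ediv_lt_iff_lt_mul hbz, ← pow_succ]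
      exact h1)
    refine ⟨Function.update w k (v % b), fun j => ?_, ?_⟩
    · rcases eq_or_ne j k with hj | hj
      · subst hj
        rw [Function.update_self]
        exact ⟨Int.emod_nonneg _ hbz.ne', Int.emod_lt_of_pos _ hbz⟩
      · rw [Function.update_of_ne hj]
        exact hw j
    · show b * W b (Function.update w k (v % b)) k + Function.update w k (v % b) k = v
      rw [Function.update_self, W_congr b _ w k fun j hj => Function.update_of_ne (by omega) _ _, hv]
      have := Int.emod_add_mul_ediv v (b : ℤ)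
      linarith

/-- normality in base `b` -/
def Normal (b : ℕ) (x : ℝ) : Prop :=
  ∀ k : ℕ, 0 < k → ∀ w : Fin k → Fin b,
    Tendsto (fun n : ℕ => (((Finset.range n).filter
      (fun i : ℕ => ∀ j : Fin k, digit b x (i + (j : ℕ)) = (((w j : ℕ)) : ℤ))).card : ℝ) / (n : ℝ))
      atTop (𝓝 ((1 : ℝ) / (b : ℝ) ^ k))

lemma block_iff (b : ℕ) (hb : 0 < b) (x : ℝ) {k : ℕ} (w : Fin k → Fin b) :
    ∃ v : ℤ, 0 ≤ v ∧ v < (b : ℤ) ^ k ∧ ∀ n, V b x k n = v ↔
      ∀ j : Fin k, digit b x (n + (j : ℕ)) = (((w j : ℕ)) : ℤ) := by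
  classical
  obtain ⟨w', hw'⟩ : ∃ w' : ℕ → ℤ, w' = fun j => if h : j < k then (((w ⟨j, h⟩ : ℕ)) : ℤ) else 0 :=
    ⟨_, rfl⟩
  have hr : ∀ j < k, 0 ≤ w' j ∧ w' j < b := by
    intro j hj
    rw [hw']
    simp only [dif_pos hj]
    exact ⟨by positivity, by exact_mod_cast (w ⟨j, hj⟩).2⟩
  obtain ⟨h1, h2⟩ := W_range b w' k hr
  refine ⟨W b w' k, h1, h2, fun n => ?_⟩
  rw [V_iff b hb x w' k n hr]
  constructor
  · intro h j
    rw [h j j.2, hw']
    simp only [dif_pos j.2]
  · intro h j hj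
    rw [h ⟨j, hj⟩, hw']
    simp only [dif_pos hj]

lemma V_range (b : ℕ) (hb : 0 < b) (x : ℝ) (k n : ℕ) : 0 ≤ V b x k n ∧ V b x k n < (b : ℤ) ^ k := by
  have hbk : (0 : ℤ) < (b : ℤ) ^ k := by positivity
  exact ⟨Int.emod_nonneg _ hbk.ne', Int.emod_lt_of_pos _ hbk⟩

/-- the point of the orbit is near the value of its block -/
lemma V_near (b : ℕ) (hb : 0 < b) (x : ℝ) (k n : ℕ) :
    ∃ j : ℤ, 0 ≤ (b : ℝ) ^ n * x - j - V b x k n / (b : ℝ) ^ k ∧
      (b : ℝ) ^ n * x - j - V b x k n / (b : ℝ) ^ k < 1 / (b : ℝ) ^ k := by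
  have hb0 : (0 : ℝ) < b := by exact_mod_cast hb
  have hbk : (0 : ℝ) < (b : ℝ) ^ k := by positivity
  obtain ⟨F, hF⟩ : ∃ F : ℤ, F = ⌊x * (b : ℝ) ^ (n + k)⌋ := ⟨_, rfl⟩
  have h1 := Int.emod_add_mul_ediv F ((b : ℤ) ^ k)
  have h2 : (V b x k n : ℝ) + (b : ℝ) ^ k * ((F / (b : ℤ) ^ k : ℤ) : ℝ) = F := by
    unfold V
    rw [← hF]
    exact_mod_cast h1
  have h3 : (F : ℝ) ≤ x * (b : ℝ) ^ (n + k) := by rw [hF]; exact Int.floor_le _
  have h4 : x * (b : ℝ) ^ (n + k) < F + 1 := by rw [hF]; exact Int.lt_floor_add_one _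
  refine ⟨F / (b : ℤ) ^ k, ?_⟩
  have e : (b : ℝ) ^ n * x - ((F / (b : ℤ) ^ k : ℤ) : ℝ) - V b x k n / (b : ℝ) ^ k =
      (x * (b : ℝ) ^ (n + k) - F) / (b : ℝ) ^ k := by
    rw [← h2, pow_add]
    field_simp
    ring
  rw [e]
  constructor
  · exact div_nonneg (by linarith) hbk.le
  · exact div_lt_div_of_pos_right (by linarith) hbk

/-- **Normality from exponential sums** -/
theorem normal_of (b : ℕ) (hb : 2 ≤ b) (x : ℝ)
    (h : ∀ m : ℤ, m ≠ 0 → Tendsto (avg (ex b x m)) atTop (𝓝 0)) : Normal b x := by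
  classical
  have hb0 : 0 < b := by omega
  have hbr : (0 : ℝ) < b := by exact_mod_cast hb0
  intro k hk w
  obtain ⟨v, hv0, hv1, hv⟩ := block_iff b hb0 x w
  simp_rw [← hv]
  obtain ⟨q, hq⟩ : ∃ q : ℕ, q = b ^ k := ⟨_, rfl⟩
  have hq0 : 0 < q := by rw [hq]; positivity
  have hqr : (q : ℝ) = (b : ℝ) ^ k := by rw [hq]; push_cast; rfl
  have hqz : (q : ℤ) = (b : ℤ) ^ k := by rw [hq]; push_cast; rfl
  have hqp : (0 : ℝ) < q := by exact_mod_cast hq0
  rw [← hqr]
  rw [← hqz] at hv1
  -- upper bounds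
  have up : ∀ u : ℕ, ∀ ε : ℝ, 0 < ε → ∀ᶠ N : ℕ in atTop,
      (((range N).filter fun n => V b x k n = (u : ℤ)).card : ℝ) / N ≤ 1 / q + ε := by
    intro u ε hε
    have h1 := arc (fun n => (b : ℝ) ^ n * x) h (((u : ℝ) + 1 / 2) / q) (1 / (2 * q)) (by positivity)
      (fun n => V b x k n = (u : ℤ)) (fun n hn => by
        obtain ⟨j, h2, h3⟩ := V_near b hb0 x k n
        rw [hn, ← hqr] at h2 h3
        have e1 : ((b : ℝ) ^ n * x - ((u : ℝ) + 1 / 2) / q) =
            ((b : ℝ) ^ n * x - j - ((u : ℤ) : ℝ) / q - 1 / (2 * q)) + (j : ℝ) := by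
          push_cast
          field_simp
          ring
        rw [e1, AddCircle.coe_add]
        have e2 : ((j : ℝ) : UnitAddCircle) = 0 := by
          have : ((j : ℝ) : UnitAddCircle) = ((j • (1 : ℝ) : ℝ) : UnitAddCircle) := by simp
          rw [this, AddCircle.coe_zsmul, AddCircle.coe_period, smul_zero]
        rw [e2, add_zero]
        refine (?_ : _ ≤ |(b : ℝ) ^ n * x - j - ((u : ℤ) : ℝ) / q - 1 / (2 * q)|).trans ?_
        · rw [UnitAddCircle.norm_eq]
          have := round_le ((b : ℝ) ^ n * x - j - ((u : ℤ) : ℝ) / q - 1 / (2 * q)) 0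
          simpa using this
        · have e3 : 1 / (q : ℝ) = 1 / (2 * q) + 1 / (2 * q) := by field_simp; norm_num
          rw [abs_le]
          constructor <;> linarith) hε
    filter_upwards [h1] with N hN
    have e3 : 2 * (1 / (2 * (q : ℝ))) = 1 / q := by field_simp
    rw [e3] at hN
    exact hN
  -- the total
  have tot : ∀ N : ℕ, 0 < N → ∑ u ∈ range q,
      (((range N).filter fun n => V b x k n = (u : ℤ)).card : ℝ) / N = 1 := by
    intro N hN
    have hNr : (0 : ℝ) < N := by exact_mod_cast hN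
    rw [← sum_div, div_eq_one_iff_eq hNr.ne']
    have h1 : (range N).card = ∑ u ∈ range q, ((range N).filter fun n => (V b x k n).toNat = u).card :=
      card_eq_sum_card_fiberwise fun n _ => by
        obtain ⟨h2, h3⟩ := V_range b hb0 x k n
        rw [← hqz] at h3
        rw [mem_coe, mem_range]
        omega
    rw [card_range] at h1
    have h4 : ∀ u : ℕ, ((range N).filter fun n => (V b x k n).toNat = u) =
        (range N).filter fun n => V b x k n = (u : ℤ) := by
      intro u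
      refine filter_congr fun n _ => ?_
      have h2 := (V_range b hb0 x k n).1
      omega
    simp_rw [h4] at h1
    exact_mod_cast h1.symm
  rw [Metric.tendsto_atTop]
  intro ε hε
  obtain ⟨u, hu⟩ : ∃ u : ℕ, (u : ℤ) = v := ⟨v.toNat, Int.toNat_of_nonneg hv0⟩
  have huq : u ∈ range q := by rw [mem_range]; omega
  obtain ⟨η, hη⟩ : ∃ η : ℝ, η = ε / (2 * q) := ⟨_, rfl⟩
  have hη0 : 0 < η := by rw [hη]; positivity
  have hall : ∀ᶠ N : ℕ in atTop, ∀ u ∈ range q,
      (((range N).filter fun n => V b x k n = (u : ℤ)).card : ℝ) / N ≤ 1 / q + η := by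
    rw [Filter.eventually_all_finset]
    exact fun u _ => up u η hη0
  obtain ⟨N0, hN0⟩ := eventually_atTop.1 hall
  refine ⟨max N0 1, fun N hN => ?_⟩
  have h1 := hN0 N ((le_max_left _ _).trans hN)
  have hN1 : 0 < N := lt_of_lt_of_le one_pos ((le_max_right _ _).trans hN)
  have h2 := tot N hN1
  rw [← add_sum_erase (range q) _ huq] at h2
  have h3 : ∑ u' ∈ (range q).erase u, (((range N).filter fun n => V b x k n = (u' : ℤ)).card : ℝ) / N ≤
      ∑ u' ∈ (range q).erase u, (1 / (q : ℝ) + η) := sum_le_sum fun u' hu' => h1 u' (mem_of_mem_erase hu')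
  rw [sum_const, card_erase_of_mem huq, card_range, nsmul_eq_mul, Nat.cast_sub hq0, Nat.cast_one] at h3
  have h4 := h1 u huq
  rw [← hu, Real.dist_eq, abs_lt]
  have e1 : ((q : ℝ) - 1) * (1 / q + η) = 1 - 1 / q + (q - 1) * η := by
    field_simp
  rw [e1] at h3
  have e2 : (q : ℝ) * η = ε / 2 := by rw [hη]; field_simp
  have hq1 : (1 : ℝ) ≤ q := by exact_mod_cast hq0
  constructor
  · nlinarith
  · nlinarith

end H41.SW
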